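import Mathlib

set_option autoImplicit false

/-!
# Monic polynomials with one critical cycle: definitions
-/

namespace Pool.Agent.TFS6

open Polynomial

/-- the monic polynomial of degree `d` with the coefficients `t` -/
noncomputable def mpol {R : Type} [CommRing R] {d : ℕ} (t : Fin d → R) : R[X] :=
  X ^ d + ∑ i : Fin d, C (t i) * X ^ (i : ℕ)

/-- every point reaches the point `c`, the only critical point of `P` in `κ`; it is simple -/
def MCrit {κ : Type} [CommRing κ] (P : κ[X]) : Prop :=
  ∃ c : κ, (∀ x : κ, ∃ n : ℕ, (fun y => P.eval y)^[n] x = c) ∧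
    (hasseDeriv 1 P).eval c = 0 ∧ (hasseDeriv 2 P).eval c ≠ 0 ∧
    ∀ x : κ, x ≠ c → (hasseDeriv 1 P).eval x ≠ 0

theorem mpol_map {R S : Type} [CommRing R] [CommRing S] (f : R →+* S) {d : ℕ} (t : Fin d → R) :
    (mpol t).map f = mpol fun i => f (t i) := by
  simp [mpol, Polynomial.map_sum]

end Pool.Agent.TFS6
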