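import Mathlib
import Pool.Agent.LMD.JetA
import Pool.Agent.TFS6.Defs

set_option autoImplicit false

/-!
# The jets of polynomials over a finite field
-/

namespace Pool.Agent.TFS6

open Polynomial

variable {κ : Type} [Field κ]

/-- the tail of `mpol` -/
noncomputable def low {d : ℕ} (t : Fin d → κ) : κ[X] := ∑ i : Fin d, C (t i) * X ^ (i : ℕ)

theorem low_coeff {d : ℕ} (t : Fin d → κ) (i : Fin d) : (low t).coeff i = t i := by
  rw [low, finset_sum_coeff, Finset.sum_eq_single i]
  · rw [coeff_C_mul, coeff_X_pow, if_pos rfl, mul_one]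
  · intro j _ hj
    rw [coeff_C_mul, coeff_X_pow, if_neg (fun h => hj (Fin.ext h.symm)), mul_zero]
  · intro h
    exact absurd (Finset.mem_univ i) h

theorem low_degree {d : ℕ} (t : Fin d → κ) : (low t).degree < d := by
  rw [degree_lt_iff_coeff_zero]
  intro m hm
  rw [low, finset_sum_coeff]
  refine Finset.sum_eq_zero fun i _ => ?_
  have hi := i.2
  rw [coeff_C_mul, coeff_X_pow, if_neg (by omega), mul_zero]

/-- the jets -/
noncomputable def jets (d : ℕ) : (Fin d → κ) →+ (κ → Fin 3 → κ) where
  toFun t x j := (hasseDeriv (j : ℕ) (low t)).eval x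
  map_zero' := by
    funext x j
    simp [low]
  map_add' := by
    intro s t
    funext x j
    have h : low (s + t) = low s + low t := by
      rw [low, low, low, ← Finset.sum_add_distrib]
      refine Finset.sum_congr rfl fun i _ => ?_
      rw [Pi.add_apply, C_add, add_mul]
    show (hasseDeriv (j : ℕ) (low (s + t))).eval x = _
    rw [h, map_add, eval_add]
    rfl

theorem jets_apply {d : ℕ} (t : Fin d → κ) (x : κ) (j : Fin 3) :
    jets d t x j = (hasseDeriv (j : ℕ) (low t)).eval x := rfl

theorem dvd_of_jets {P : κ[X]} {x : κ} (h : ∀ j : Fin 3, (hasseDeriv (j : ℕ) P).eval x = 0) :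
    (X - C x) ^ 3 ∣ P := by
  rw [X_sub_C_pow_dvd_iff, X_pow_dvd_iff]
  intro m hm
  have h1 := taylor_coeff x P m
  rw [taylor_apply] at h1
  rw [h1]
  exact h ⟨m, hm⟩

/-- a polynomial of degree less than `3 q` is determined by its jets -/
theorem jets_inj [Finite κ] : Function.Injective (jets (κ := κ) (3 * Nat.card κ)) := by
  classical
  have := Fintype.ofFinite κ
  rw [injective_iff_map_eq_zero]
  intro t ht
  have h1 : ∀ x : κ, (X - C x) ^ 3 ∣ low t := fun x => dvd_of_jets fun j => by
    rw [← jets_apply, ht]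
    rfl
  have h2 : ∏ x : κ, (X - C x) ^ 3 ∣ low t := by
    refine Finset.prod_dvd_of_coprime (fun x _ y _ hxy => ?_) fun x _ => h1 x
    exact IsCoprime.pow (pairwise_coprime_X_sub_C Function.injective_id hxy)
  have h3 : low t = 0 := by
    by_contra hne
    have h4 := degree_le_of_dvd h2 hne
    have h5 : (∏ x : κ, (X - C x) ^ 3 : κ[X]).degree = ((3 * Nat.card κ : ℕ) : WithBot ℕ) := by
      rw [degree_prod, Finset.sum_congr rfl fun x _ => by rw [degree_pow, degree_X_sub_C],
        Finset.sum_const, Finset.card_univ, Nat.card_eq_fintype_card]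
      rw [nsmul_eq_mul, nsmul_eq_mul, mul_one]
      push_cast
      ring
    rw [h5] at h4
    exact absurd (low_degree t) (not_lt.mpr h4)
  funext i
  rw [← low_coeff t i, h3, coeff_zero]
  rfl

theorem jets_surj [Finite κ] {d : ℕ} (hd : 3 * Nat.card κ ≤ d) :
    Function.Surjective (jets (κ := κ) d) := by
  classical
  have := Fintype.ofFinite κ
  have hsur : Function.Surjective (jets (κ := κ) (3 * Nat.card κ)) := by
    have hb : Function.Bijective (jets (κ := κ) (3 * Nat.card κ)) := by
      rw [Fintype.bijective_iff_injective_and_card]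
      refine ⟨jets_inj, ?_⟩
      rw [Fintype.card_fun, Fintype.card_fun, Fintype.card_fun, Fintype.card_fin,
        Fintype.card_fin, Nat.card_eq_fintype_card, pow_mul]
    exact hb.2
  intro α
  obtain ⟨s, hs⟩ := hsur α
  refine ⟨fun i => if h : (i : ℕ) < 3 * Nat.card κ then s ⟨i, h⟩ else 0, ?_⟩
  rw [← hs]
  have h1 : low (fun i : Fin d => if h : (i : ℕ) < 3 * Nat.card κ then s ⟨i, h⟩ else 0) =
      low s := by
    ext m
    by_cases hm : m < 3 * Nat.card κ
    · have e1 := low_coeff (fun i : Fin d => if h : (i : ℕ) < 3 * Nat.card κ then s ⟨i, h⟩ else 0)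
        ⟨m, hm.trans_le hd⟩
      have e2 := low_coeff s ⟨m, hm⟩
      simp only [hm, dif_pos] at e1
      rw [e1, e2]
    · rw [coeff_eq_zero_of_degree_lt ((low_degree s).trans_le (by exact_mod_cast not_lt.mp hm))]
      by_cases hm' : m < d
      · have e1 := low_coeff (fun i : Fin d => if h : (i : ℕ) < 3 * Nat.card κ then s ⟨i, h⟩ else 0)
          ⟨m, hm'⟩
        simp only [hm, dif_neg, not_false_eq_true] at e1
        exact e1
      · exact coeff_eq_zero_of_degree_lt ((low_degree _).trans_le (by exact_mod_cast not_lt.mp hm'))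
  funext x j
  rw [jets_apply, jets_apply, h1]

/-- the jets of monic polynomials are equidistributed -/
theorem card_jets [Finite κ] {d q : ℕ} (hq : Nat.card κ = q) (hd : 3 * q ≤ d)
    (S : Set (κ → Fin 3 → κ)) :
    {t : Fin d → κ | (fun (x : κ) (j : Fin 3) => (hasseDeriv (j : ℕ) (mpol t)).eval x) ∈ S}.ncard *
      q ^ (3 * q) = S.ncard * q ^ d := by
  classical
  obtain ⟨β, hβ⟩ : ∃ β : κ → Fin 3 → κ,
    β = fun (x : κ) (j : Fin 3) => (hasseDeriv (j : ℕ) (X ^ d : κ[X])).eval x := ⟨_, rfl⟩
  have h1 := Pool.Agent.LMD.JetE.card_pre (jets (κ := κ) d) (jets_surj (by rw [hq]; exact hd)) ((fun α => β + α) ⁻¹' S)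
  have h2 : {t : Fin d → κ | (fun (x : κ) (j : Fin 3) =>
      (hasseDeriv (j : ℕ) (mpol t)).eval x) ∈ S} =
      {t | jets (κ := κ) d t ∈ (fun α => β + α) ⁻¹' S} := by
    ext t
    have h3 : (fun (x : κ) (j : Fin 3) => (hasseDeriv (j : ℕ) (mpol t)).eval x) =
        β + jets d t := by
      funext x j
      rw [Pi.add_apply, Pi.add_apply, jets_apply, hβ, ← eval_add, ← map_add]
      rfl
    rw [Set.mem_setOf_eq, Set.mem_setOf_eq, Set.mem_preimage, h3]
  have h4 : ((fun α : κ → Fin 3 → κ => β + α) ⁻¹' S).ncard = S.ncard := by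
    rw [Set.ncard_preimage_of_injective_subset_range (add_right_injective β)]
    intro α _
    exact ⟨α - β, by simp⟩
  have h5 : Nat.card (κ → Fin 3 → κ) = q ^ (3 * q) := by
    rw [Nat.card_fun, Nat.card_fun, Nat.card_fin, hq, ← pow_mul]
  have h6 : Nat.card (Fin d → κ) = q ^ d := by
    rw [Nat.card_fun, Nat.card_fin, hq]
  rw [h2, ← h5, ← h6, ← h4]
  exact h1

end Pool.Agent.TFS6
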