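import Mathlib
import Pool.Agent.LMD.Cay
import Pool.Agent.TFS6.Jet

set_option autoImplicit false

/-!
# The share of the monic polynomials over a finite field with one critical cycle
-/

namespace Pool.Agent.TFS6

open Polynomial

/-- the jets of the polynomials counted -/
def Gm {κ : Type} [Zero κ] (c : κ) (α : κ → Fin 3 → κ) : Prop :=
  (∀ x : κ, ∃ n : ℕ, (fun y => α y 0)^[n] x = c) ∧ α c 1 = 0 ∧ α c 2 ≠ 0 ∧
    ∀ x : κ, x ≠ c → α x 1 ≠ 0

theorem mcrit_iff {κ : Type} [Field κ] {d : ℕ} (t : Fin d → κ) : MCrit (mpol t) ↔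
    ∃ c, Gm c fun (x : κ) (j : Fin 3) => (hasseDeriv (j : ℕ) (mpol t)).eval x := by
  have h0 : ∀ y : κ, (hasseDeriv ((0 : Fin 3) : ℕ) (mpol t)).eval y = (mpol t).eval y := by
    intro y
    rw [Fin.val_zero, hasseDeriv_zero, LinearMap.id_apply]
  unfold MCrit Gm
  simp only [h0]
  rfl

theorem card_Gm {κ : Type} [Field κ] [Finite κ] {q : ℕ} (hq : Nat.card κ = q) (c : κ) :
    {α : κ → Fin 3 → κ | Gm c α}.ncard = q ^ (q - 1) * (q - 1) ^ (q - 1) * ((q - 1) * q ^ (q - 1)) := by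
  classical
  have := Fintype.ofFinite κ
  have hq' : Fintype.card κ = q := by rw [← Nat.card_eq_fintype_card, hq]
  have hq0 : 0 < q := hq' ▸ Fintype.card_pos
  -- the three parts
  let E : (κ → Fin 3 → κ) ≃ (κ → κ) × (κ → κ) × (κ → κ) :=
    { toFun := fun α => (fun x => α x 0, fun x => α x 1, fun x => α x 2)
      invFun := fun f => fun x => ![f.1 x, f.2.1 x, f.2.2 x]
      left_inv := by
        intro α
        funext x j
        fin_cases j <;> rfl
      right_inv := by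
        intro f
        rfl }
  obtain ⟨A, hA⟩ : ∃ A : Set (κ → κ), A = {f | ∀ x, ∃ n : ℕ, f^[n] x = c} := ⟨_, rfl⟩
  obtain ⟨B, hB⟩ : ∃ B : Set (κ → κ), B = {g | g c = 0 ∧ ∀ x, x ≠ c → g x ≠ 0} := ⟨_, rfl⟩
  obtain ⟨D, hD⟩ : ∃ D : Set (κ → κ), D = {h | h c ≠ 0} := ⟨_, rfl⟩
  have hE : {α : κ → Fin 3 → κ | Gm c α} = E ⁻¹' (A ×ˢ (B ×ˢ D)) := by
    ext α
    rw [hA, hB, hD]
    constructor
    · rintro ⟨h1, h2, h3, h4⟩
      exact ⟨h1, ⟨h2, h4⟩, h3⟩
    · rintro ⟨h1, ⟨h2, h4⟩, h3⟩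
      exact ⟨h1, h2, h3, h4⟩
  have hAc : A.ncard = q ^ (q - 1) := by
    rw [hA, Pool.Agent.LMD.cayley c, hq]
  have hpi : ∀ (T : κ → Finset κ), (Set.univ.pi fun x => (T x : Set κ)).ncard =
      ∏ x, (T x).card := by
    intro T
    rw [← Fintype.card_piFinset, ← Set.ncard_coe_finset, Fintype.coe_piFinset]
  have hBc : B.ncard = (q - 1) ^ (q - 1) := by
    have h1 : B = Set.univ.pi fun x => ((if x = c then {0} else Finset.univ.erase 0 : Finset κ) :
        Set κ) := by
      rw [hB]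
      ext g
      simp only [Set.mem_setOf_eq, Set.mem_pi, Set.mem_univ, true_imp_iff]
      constructor
      · rintro ⟨h2, h3⟩ x
        by_cases hx : x = c
        · rw [if_pos hx, hx, h2]
          simp
        · rw [if_neg hx]
          simp [h3 x hx]
      · intro h
        refine ⟨?_, fun x hx => ?_⟩
        · have := h c
          rw [if_pos rfl] at this
          simpa using this
        · have := h x
          rw [if_neg hx] at this
          simpa using this
    rw [h1, hpi, ← Finset.mul_prod_erase Finset.univ _ (Finset.mem_univ c), if_pos rfl,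
      Finset.card_singleton, one_mul, Finset.prod_congr rfl fun x hx => by
        rw [if_neg (Finset.ne_of_mem_erase hx), Finset.card_erase_of_mem (Finset.mem_univ _),
          Finset.card_univ, hq'], Finset.prod_const, Finset.card_erase_of_mem (Finset.mem_univ _),
      Finset.card_univ, hq']
  have hDc : D.ncard = (q - 1) * q ^ (q - 1) := by
    have h1 : D = Set.univ.pi fun x => ((if x = c then Finset.univ.erase 0 else Finset.univ :
        Finset κ) : Set κ) := by
      rw [hD]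
      ext g
      simp only [Set.mem_setOf_eq, Set.mem_pi, Set.mem_univ, true_imp_iff]
      constructor
      · intro h2 x
        by_cases hx : x = c
        · rw [if_pos hx, hx]
          simp [h2]
        · rw [if_neg hx]
          simp
      · intro h
        have := h c
        rw [if_pos rfl] at this
        simpa using this
    rw [h1, hpi, ← Finset.mul_prod_erase Finset.univ _ (Finset.mem_univ c), if_pos rfl,
      Finset.card_erase_of_mem (Finset.mem_univ _), Finset.card_univ, hq',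
      Finset.prod_congr rfl fun x hx => by
        rw [if_neg (Finset.ne_of_mem_erase hx), Finset.card_univ, hq'],
      Finset.prod_const, Finset.card_erase_of_mem (Finset.mem_univ _), Finset.card_univ, hq']
  rw [hE, Set.ncard_preimage_of_injective_subset_range E.injective
    (fun x _ => E.surjective x), Set.ncard_prod, Set.ncard_prod, hAc, hBc, hDc]
  ring

/-- the number of the jets -/
theorem card_Gm_all {κ : Type} [Field κ] [Finite κ] {q : ℕ} (hq : Nat.card κ = q) :
    {α : κ → Fin 3 → κ | ∃ c, Gm c α}.ncard = q ^ (2 * q - 1) * (q - 1) ^ q := by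
  classical
  have := Fintype.ofFinite κ
  have hq' : Fintype.card κ = q := by rw [← Nat.card_eq_fintype_card, hq]
  have hq0 : 0 < q := hq' ▸ Fintype.card_pos
  have h1 : {α : κ → Fin 3 → κ | ∃ c, Gm c α} = ⋃ c ∈ (Finset.univ : Finset κ), {α | Gm c α} := by
    ext α
    simp
  have h2 : {α : κ → Fin 3 → κ | ∃ c, Gm c α}.ncard = ∑ c : κ, {α | Gm c α}.ncard := by
    have hf : ∀ c : κ, {α : κ → Fin 3 → κ | Gm c α}.toFinset.card = {α | Gm c α}.ncard :=
      fun c => (Set.ncard_eq_toFinset_card' _).symm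
    have h3 : {α : κ → Fin 3 → κ | ∃ c, Gm c α}.toFinset =
        (Finset.univ : Finset κ).biUnion fun c => {α | Gm c α}.toFinset := by
      ext α
      simp
    rw [Set.ncard_eq_toFinset_card', h3, Finset.card_biUnion]
    · exact Finset.sum_congr rfl fun c _ => hf c
    · intro c _ c' _ hcc
      change Disjoint {α : κ → Fin 3 → κ | Gm c α}.toFinset {α : κ → Fin 3 → κ | Gm c' α}.toFinset
      rw [Finset.disjoint_left]
      intro α hα hα'
      rw [Set.mem_toFinset] at hα hα'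
      exact hα'.2.2.2 c hcc hα.2.1
  rw [h2, Finset.sum_congr rfl fun c _ => card_Gm hq c, Finset.sum_const, Finset.card_univ, hq',
    smul_eq_mul]
  obtain ⟨m, rfl⟩ : ∃ m, q = m + 1 := ⟨q - 1, by omega⟩
  rw [show 2 * (m + 1) - 1 = m + 1 + m by omega, Nat.add_sub_cancel]
  ring

theorem num {q : ℕ} (hq : 3 ≤ q) : (1 : ℝ) / 20 ≤ (1 - 1 / (q : ℝ)) ^ q := by
  have hq' : (3 : ℝ) ≤ q := by exact_mod_cast hq
  have hx0 : (0 : ℝ) ≤ 1 / q := by positivity
  have hx1 : (1 : ℝ) / q ≤ 1 / 3 := one_div_le_one_div_of_le (by norm_num) hq'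
  have hxq : (1 : ℝ) / q * q = 1 := by field_simp
  obtain ⟨x, hx⟩ : ∃ x : ℝ, x = 1 / (q : ℝ) := ⟨_, rfl⟩
  rw [← hx] at hx0 hx1 hxq ⊢
  obtain ⟨n, hn⟩ : ∃ n : ℕ, n = (q + 1) / 2 := ⟨_, rfl⟩
  have hn1 : q ≤ 2 * n := by omega
  have hn2 : 2 * n ≤ q + 1 := by omega
  have hn3 : 2 * (n : ℝ) ≤ q + 1 := by exact_mod_cast hn2
  have h2 := one_add_mul_le_pow (a := -x) (by linarith) n
  have h3 : (1 / 3 : ℝ) ≤ 1 + (n : ℝ) * -x := by
    have h4 : (n : ℝ) * x ≤ (q + 1) / 2 * x := mul_le_mul_of_nonneg_right (by linarith) hx0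
    nlinarith
  have h4 : (1 / 3 : ℝ) ≤ (1 - x) ^ n := by
    rw [sub_eq_add_neg]
    exact h3.trans h2
  have h5 : (1 - x) ^ (2 * n) ≤ (1 - x) ^ q := pow_le_pow_of_le_one (by linarith) (by linarith) hn1
  have h6 : (1 / 3 : ℝ) ^ 2 ≤ (1 - x) ^ (2 * n) := by
    rw [mul_comm, pow_mul]
    exact pow_le_pow_left₀ (by norm_num) h4 2
  norm_num at h6
  linarith

/-- **The share of the monic polynomials with one critical cycle.** -/
theorem card_mcrit (κ : Type) [Field κ] [Finite κ] {d q : ℕ} (hκ : Nat.card κ = q) (hq : 3 ≤ q)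
    (hd : 3 * q ≤ d) : (1 / (20 * (q : ℝ))) * (q : ℝ) ^ d ≤
      ({t : Fin d → κ | MCrit (mpol t)}.ncard : ℝ) := by
  have hq' : (3 : ℝ) ≤ q := by exact_mod_cast hq
  have hq0 : (0 : ℝ) < q := by linarith
  have h1 := card_jets hκ hd {α : κ → Fin 3 → κ | ∃ c, Gm c α}
  rw [card_Gm_all hκ] at h1
  have h2 : {t : Fin d → κ | (fun (x : κ) (j : Fin 3) => (hasseDeriv (j : ℕ) (mpol t)).eval x) ∈
      {α : κ → Fin 3 → κ | ∃ c, Gm c α}} = {t : Fin d → κ | MCrit (mpol t)} := by
    ext t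
    exact (mcrit_iff t).symm
  rw [h2] at h1
  have h3 := congrArg (Nat.cast (R := ℝ)) h1
  push_cast [Nat.cast_sub (show 1 ≤ q by omega)] at h3
  have h4 := num hq
  have h5 : ((q : ℝ) - 1) ^ q = (1 - 1 / (q : ℝ)) ^ q * (q : ℝ) ^ q := by
    rw [← mul_pow, sub_mul, one_mul, one_div, inv_mul_cancel₀ hq0.ne']
  have h6 : (q : ℝ) ^ (2 * q - 1) * q = (q : ℝ) ^ (2 * q) := by
    rw [← pow_succ]
    congr 1
    omega
  have h7 : ({t : Fin d → κ | MCrit (mpol t)}.ncard : ℝ) * q =
      (1 - 1 / (q : ℝ)) ^ q * (q : ℝ) ^ d := by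
    have h8 : ({t : Fin d → κ | MCrit (mpol t)}.ncard : ℝ) * q * (q : ℝ) ^ (3 * q) =
        (1 - 1 / (q : ℝ)) ^ q * (q : ℝ) ^ d * (q : ℝ) ^ (3 * q) := by
      calc ({t : Fin d → κ | MCrit (mpol t)}.ncard : ℝ) * q * (q : ℝ) ^ (3 * q)
          = (({t : Fin d → κ | MCrit (mpol t)}.ncard : ℝ) * (q : ℝ) ^ (3 * q)) * q := by ring
        _ = ((q : ℝ) ^ (2 * q - 1) * q) * ((q : ℝ) - 1) ^ q * (q : ℝ) ^ d := by rw [h3]; ring
        _ = _ := by
          rw [h6, h5, show 3 * q = 2 * q + q by ring, pow_add]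
          ring
    exact mul_right_cancel₀ (by positivity) h8
  rw [one_div, mul_inv, mul_assoc, mul_comm (q : ℝ)⁻¹, ← mul_assoc, ← div_eq_mul_inv,
    div_le_iff₀ hq0, h7]
  refine mul_le_mul_of_nonneg_right ?_ (by positivity)
  linarith

end Pool.Agent.TFS6
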