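import Mathlib
import Pool.Agent.LMD.Mrt

set_option autoImplicit false

/-!
# Finite sets of primes with a large sum of reciprocals of norms off every rational prime
-/

namespace Pool.Agent.TFS6

open NumberField IsDedekindDomain

namespace Prm

variable {K : Type} [Field K] [NumberField K]

omit [NumberField K] in
theorem mem_of_zero (v : HeightOneSpectrum (𝓞 K)) (p : ℕ) (h : (p : 𝓞 K ⧸ v.asIdeal) = 0) :
    ((p : ℕ) : 𝓞 K) ∈ v.asIdeal := by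
  rw [← Ideal.Quotient.eq_zero_iff_mem, map_natCast]
  exact h

theorem le_norm (v : HeightOneSpectrum (𝓞 K)) (p : ℕ) (hp : p.Prime)
    (h : ((p : ℕ) : 𝓞 K) ∈ v.asIdeal) : p ≤ Ideal.absNorm v.asIdeal := by
  by_cases he : p = NDE.ChvA.pv v
  · rw [he]
    exact NDE.ChvA.pv_le v
  · exfalso
    have h1 := (Nat.coprime_primes hp (NDE.ChvA.pv_prime v)).2 he
    have h2 := Nat.isCoprime_iff_coprime.2 h1
    obtain ⟨a, b, hab⟩ := h2
    have h3 : (1 : 𝓞 K) ∈ v.asIdeal := by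
      have h4 : (1 : 𝓞 K) = (a : 𝓞 K) * ((p : ℕ) : 𝓞 K) + (b : 𝓞 K) * ((NDE.ChvA.pv v : ℕ) : 𝓞 K) := by
        exact_mod_cast (congrArg (fun z : ℤ => (z : 𝓞 K)) hab).symm
      rw [h4]
      exact v.asIdeal.add_mem (v.asIdeal.mul_mem_left _ h)
        (v.asIdeal.mul_mem_left _ (NDE.ChvA.pv_mem v))
    exact v.isPrime.ne_top ((Ideal.eq_top_iff_one _).2 h3)

end Prm

open Prm

/-- a finite set of large odd primes, whose part off any rational prime has a large sum of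
reciprocals of norms -/
theorem exists_primes_off (K : Type) [Field K] [NumberField K] (B : ℝ) :
    ∃ V : Finset (HeightOneSpectrum (𝓞 K)),
      (∀ v ∈ V, 32 ≤ Ideal.absNorm v.asIdeal ∧ (2 : 𝓞 K ⧸ v.asIdeal) ≠ 0) ∧
      ∀ p : ℕ, p.Prime → ∃ W ⊆ V, (∀ v ∈ W, (p : 𝓞 K ⧸ v.asIdeal) ≠ 0) ∧
        B ≤ ∑ v ∈ W, (Ideal.absNorm v.asIdeal : ℝ)⁻¹ := by
  classical
  obtain ⟨V, hV, hVB⟩ := LMD.exists_primes K (B + Module.finrank ℤ (𝓞 K))
  refine ⟨V, hV, fun p hp => ⟨V.filter fun v => (p : 𝓞 K ⧸ v.asIdeal) ≠ 0,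
    Finset.filter_subset _ _, fun v hv => (Finset.mem_filter.1 hv).2, ?_⟩⟩
  obtain ⟨S, hS⟩ : ∃ S, S = V.filter fun v => ¬ (p : 𝓞 K ⧸ v.asIdeal) ≠ 0 := ⟨_, rfl⟩
  have h1 := Finset.sum_filter_add_sum_filter_not V (fun v => (p : 𝓞 K ⧸ v.asIdeal) ≠ 0)
    (fun v => (Ideal.absNorm v.asIdeal : ℝ)⁻¹)
  rw [← hS] at h1
  have hmem : ∀ v ∈ S, ((p : ℕ) : 𝓞 K) ∈ v.asIdeal := by
    intro v hv
    rw [hS] at hv
    exact mem_of_zero v p (not_not.1 (Finset.mem_filter.1 hv).2)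
  have hcard : S.card ≤ Module.finrank ℤ (𝓞 K) :=
    NDE.ChvA.card_fib p hp S hmem fun v hv => le_norm v p hp (hmem v hv)
  have h2 : ∑ v ∈ S, (Ideal.absNorm v.asIdeal : ℝ)⁻¹ ≤ ∑ v ∈ S, (1 : ℝ) := by
    refine Finset.sum_le_sum fun v hv => ?_
    have h3 : v ∈ V := by
      rw [hS] at hv
      exact (Finset.mem_filter.1 hv).1
    have h4 : (1 : ℝ) ≤ (Ideal.absNorm v.asIdeal : ℝ) := by
      have h5 : 1 ≤ Ideal.absNorm v.asIdeal := le_trans (by norm_num) (hV v h3).1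
      exact_mod_cast h5
    exact inv_le_one_of_one_le₀ h4
  rw [Finset.sum_const, nsmul_eq_mul, mul_one] at h2
  have h6 : (S.card : ℝ) ≤ Module.finrank ℤ (𝓞 K) := by exact_mod_cast hcard
  linarith

end Pool.Agent.TFS6
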