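import Pool.Agent.TFS6.Defs
import Pool.Agent.TFS5.Uni
import Pool.Agent.TFS5.Sup
import Pool.Agent.AAP.NMp

set_option autoImplicit false

/-!
# Monic polynomials with one critical cycle: from the residue field to the number field
-/

namespace Pool.Agent.TFS6

open Polynomial IsDedekindDomain NumberField
open scoped WithZero

section Dom

variable {κ : Type} [CommRing κ] [IsDomain κ]

omit [IsDomain κ] in
theorem comp_near (f : κ[X]) (y : κ) (Y : κ[X]) :
    f.comp (C y + Y) = (taylor y f).comp Y := by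
  rw [taylor_apply, comp_assoc, add_comp, X_comp, C_comp, add_comm]

/-- one step at a point that is not critical -/
theorem step_unit {f : κ[X]} {y : κ} (h1 : (hasseDeriv 1 f).eval y ≠ 0) {E : ℕ} (hE : 0 < E)
    {Q : κ[X]} (hQ : Q.coeff 0 ≠ 0) :
    ∃ Q' : κ[X], Q'.coeff 0 ≠ 0 ∧ f.comp (C y + X ^ E * Q) = C (f.eval y) + X ^ E * Q' := by
  have hg := divX_mul_X_add (taylor y f)
  refine ⟨(divX (taylor y f)).comp (X ^ E * Q) * Q, ?_, ?_⟩
  · rw [coeff_zero_eq_eval_zero, eval_mul, eval_comp, eval_mul, eval_pow, eval_X,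
      zero_pow hE.ne', zero_mul, ← coeff_zero_eq_eval_zero, ← coeff_zero_eq_eval_zero,
      coeff_divX, taylor_coeff]
    exact mul_ne_zero h1 hQ
  · rw [comp_near]
    conv_lhs => rw [← hg]
    rw [add_comp, mul_comp, X_comp, C_comp, taylor_coeff_zero]
    ring

/-- one step at a simple critical point -/
theorem step_crit {f : κ[X]} {y : κ} (h1 : (hasseDeriv 1 f).eval y = 0)
    (h2 : (hasseDeriv 2 f).eval y ≠ 0) {E : ℕ} (hE : 0 < E) {Q : κ[X]} (hQ : Q.coeff 0 ≠ 0) :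
    ∃ Q' : κ[X], Q'.coeff 0 ≠ 0 ∧
      f.comp (C y + X ^ E * Q) = C (f.eval y) + X ^ (2 * E) * Q' := by
  have hg := divX_mul_X_add (taylor y f)
  have hg2 := divX_mul_X_add (divX (taylor y f))
  have hc : (divX (taylor y f)).coeff 0 = 0 := by
    rw [coeff_divX, taylor_coeff]
    exact h1
  rw [hc, C_0, add_zero] at hg2
  refine ⟨(divX (divX (taylor y f))).comp (X ^ E * Q) * Q ^ 2, ?_, ?_⟩
  · rw [coeff_zero_eq_eval_zero, eval_mul, eval_comp, eval_mul, eval_pow, eval_X,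
      zero_pow hE.ne', zero_mul, eval_pow, ← coeff_zero_eq_eval_zero, ← coeff_zero_eq_eval_zero,
      coeff_divX, coeff_divX, taylor_coeff]
    exact mul_ne_zero h2 (pow_ne_zero 2 hQ)
  · rw [comp_near]
    conv_lhs => rw [← hg, ← hg2]
    rw [add_comp, mul_comp, mul_comp, X_comp, C_comp, taylor_coeff_zero]
    ring

/-- the iterates of a polynomial with one critical point near a point -/
theorem ord_iter {f : κ[X]} {c : κ} (h1 : (hasseDeriv 1 f).eval c = 0)
    (h2 : (hasseDeriv 2 f).eval c ≠ 0) (h3 : ∀ x : κ, x ≠ c → (hasseDeriv 1 f).eval x ≠ 0)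
    (x : κ) (n : ℕ) :
    ∃ (Q : κ[X]) (E : ℕ), Q.coeff 0 ≠ 0 ∧ 0 < E ∧
      ((f.comp)^[n] X).comp (X + C x) = C ((fun y => f.eval y)^[n] x) + X ^ E * Q ∧
      ((∃ i < n, (fun y => f.eval y)^[i] x = c) → 2 ∣ E) := by
  induction n with
  | zero =>
    refine ⟨1, 1, by simp, one_pos, ?_, fun ⟨i, hi, _⟩ => absurd hi (Nat.not_lt_zero i)⟩
    simp [add_comm]
  | succ n ih =>
    obtain ⟨Q, E, hQ, hE, hP, hz⟩ := ih
    have e1 : ((f.comp)^[n + 1] X).comp (X + C x) =
        f.comp (C ((fun y => f.eval y)^[n] x) + X ^ E * Q) := by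
      rw [Function.iterate_succ_apply', comp_assoc, hP]
    have e2 : (fun y => f.eval y)^[n + 1] x = f.eval ((fun y => f.eval y)^[n] x) :=
      Function.iterate_succ_apply' _ _ _
    rcases eq_or_ne ((fun y => f.eval y)^[n] x) c with hy | hy
    · obtain ⟨Q', hQ', h4⟩ := step_crit (f := f) (y := (fun y => f.eval y)^[n] x)
        (by rw [hy]; exact h1) (by rw [hy]; exact h2) hE hQ
      exact ⟨Q', 2 * E, hQ', by omega, by rw [e1, e2, h4], fun _ => ⟨E, rfl⟩⟩
    · obtain ⟨Q', hQ', h4⟩ := step_unit (h3 _ hy) hE hQ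
      refine ⟨Q', E, hQ', hE, by rw [e1, e2, h4], ?_⟩
      rintro ⟨i, hi, h0⟩
      rcases Nat.lt_succ_iff_lt_or_eq.mp hi with h | h
      · exact hz ⟨i, h, h0⟩
      · rw [h] at h0
        exact absurd h0 hy

end Dom

section Mon

variable {R : Type} [CommRing R] {d : ℕ}

theorem deg_low (t : Fin d → R) : (∑ i : Fin d, C (t i) * X ^ (i : ℕ)).degree < (d : WithBot ℕ) :=
  degree_sum_fin_lt t

theorem monic_mpol (t : Fin d → R) : (mpol t).Monic := monic_X_pow_add (deg_low t)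

theorem natDegree_mpol [Nontrivial R] (t : Fin d → R) : (mpol t).natDegree = d := by
  unfold mpol
  rw [natDegree_add_eq_left_of_degree_lt, natDegree_X_pow]
  rw [degree_X_pow]
  exact deg_low t

end Mon

/-- **From the residue field to the number field.** -/
theorem mtransfer {K : Type} [Field K] [NumberField K] {d : ℕ} (hd : 2 ≤ d)
    (v : HeightOneSpectrum (𝓞 K)) (t : Fin d → 𝓞 K)
    (h2 : (2 : 𝓞 K ⧸ v.asIdeal) ≠ 0)
    (hdp : ∀ p k : ℕ, p.Prime → (p : 𝓞 K ⧸ v.asIdeal) = 0 → d ≠ p ^ k)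
    (h : MCrit (mpol fun i => Ideal.Quotient.mk v.asIdeal (t i)))
    (Γ : Finset K)
    (hΓ : ∀ γ ∈ Γ, ∀ n, 0 < n → (TameArb.ph (mpol fun i => (t i : K)))^[n] γ ≠ γ) :
    (TameArb.GP (mpol fun i => (t i : K)) Γ).Infinite := by
  classical
  have hmax : v.asIdeal.IsMaximal := v.isMaximal
  let _ : Field (𝓞 K ⧸ v.asIdeal) := Ideal.Quotient.field v.asIdeal
  set V := v.valuation K with hV
  -- the maps
  let ι : 𝓞 K →+* V.integer :=
    (algebraMap (𝓞 K) K).codRestrict V.integer fun a => v.valuation_le_one a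
  have hι : ∀ a : 𝓞 K, ((ι a : V.integer) : K) = (a : K) := fun a => rfl
  set r : V.integer →+* (V.integer ⧸ TameArb.mI V) := Ideal.Quotient.mk (TameArb.mI V) with hr
  have hrv : ∀ a : V.integer, r a = 0 ↔ V (a : K) < 1 := by
    intro a
    rw [hr, Ideal.Quotient.eq_zero_iff_mem, TameArb.mem_mI]
  let θ : 𝓞 K ⧸ v.asIdeal →+* (V.integer ⧸ TameArb.mI V) :=
    Ideal.Quotient.lift v.asIdeal (r.comp ι) fun a ha => by
      change r (ι a) = 0
      rw [hrv, hι]
      exact (v.valuation_lt_one_iff_mem (K := K) a).2 ha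
  have hθ : ∀ a : 𝓞 K, θ (Ideal.Quotient.mk v.asIdeal a) = r (ι a) := fun a => rfl
  have hθi : Function.Injective θ := θ.injective
  -- the polynomials
  obtain ⟨φ, hφ⟩ : ∃ φ : K[X], φ = mpol fun i => (t i : K) := ⟨_, rfl⟩
  obtain ⟨φ', hφ'⟩ : ∃ φ' : V.integer[X], φ' = mpol fun i => ι (t i) := ⟨_, rfl⟩
  obtain ⟨f, hf⟩ : ∃ f : (𝓞 K ⧸ v.asIdeal)[X],
    f = mpol fun i => Ideal.Quotient.mk v.asIdeal (t i) := ⟨_, rfl⟩
  rw [← hφ] at hΓ ⊢
  rw [← hf] at h
  have hφφ : φ'.map V.integer.subtype = φ := by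
    rw [hφ', hφ, mpol_map]
    rfl
  have hφf : φ'.map r = f.map θ := by
    rw [hφ', hf, mpol_map, mpol_map]
    rfl
  have hdeg : φ.natDegree = d := by rw [hφ, natDegree_mpol]
  have hG : TameArb.Good V φ := by
    refine ⟨fun i => ?_, ?_⟩
    · rw [← hφφ, coeff_map]
      exact (φ'.coeff i).2
    · rw [hφ, (monic_mpol _).leadingCoeff, map_one]
  -- the residue characteristic
  obtain ⟨p, hp, hpv, hp0⟩ : ∃ p : ℕ, p.Prime ∧ V (p : K) < 1 ∧
      (p : 𝓞 K ⧸ v.asIdeal) = 0 := by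
    have hfin : Finite (𝓞 K ⧸ v.asIdeal) := Ideal.finiteQuotientOfFreeOfNeBot _ v.ne_bot
    obtain ⟨p, hp⟩ := CharP.exists (𝓞 K ⧸ v.asIdeal)
    have hp1 : p.Prime := CharP.char_is_prime (𝓞 K ⧸ v.asIdeal) p
    have hp2 : (p : 𝓞 K ⧸ v.asIdeal) = 0 := CharP.cast_eq_zero _ p
    refine ⟨p, hp1, ?_, hp2⟩
    have h3 : ((p : ℕ) : 𝓞 K) ∈ v.asIdeal := by
      rw [← Ideal.Quotient.eq_zero_iff_mem, map_natCast]
      exact hp2
    have h4 := (v.valuation_lt_one_iff_mem (K := K) _).2 h3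
    have h5 : ((p : ℕ) : K) = ((p : 𝓞 K) : K) := (map_natCast (algebraMap (𝓞 K) K) p).symm
    rw [h5]
    exact h4
  have hp2 : (2 : ℕ) ≠ p := by
    rintro rfl
    apply h2
    have : ((2 : ℕ) : 𝓞 K ⧸ v.asIdeal) = 2 := by norm_num
    rw [← this]
    exact hp0
  have hld : ∃ l : ℕ, l.Prime ∧ l ≠ p ∧ l ∣ φ.natDegree := by
    rw [hdeg]
    by_contra hcon
    push Not at hcon
    exact hdp p _ hp hp0 (Nat.eq_prime_pow_of_unique_prime_dvd (by omega) fun {l} hl hle =>
      by_contra fun hne => hcon l hl hne hle)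
  obtain ⟨c, hreach, hc1, hc2, hc3⟩ := h
  refine TFS5.infinite_sup (by rw [hdeg]; exact hd) v hG hp hpv hld (fun x hx hper => ?_) Γ hΓ
  -- the residue class of `x`
  obtain ⟨x₀, hx₀⟩ := AAP.NMpA.exists_int v hx
  set x' : V.integer := ⟨x, hx⟩ with hx'
  have hxr : r x' = θ (Ideal.Quotient.mk v.asIdeal x₀) := by
    rw [hθ, ← sub_eq_zero, ← map_sub, hrv]
    exact hx₀
  set y := Ideal.Quotient.mk v.asIdeal x₀ with hy
  have hev : ∀ n, ((((fun y => φ'.eval y)^[n] x') : V.integer) : K) =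
      (fun y => φ.eval y)^[n] x := by
    intro n
    have h1 := TFS5.map_iter_eval V.integer.subtype φ' n x'
    rw [hφφ] at h1
    exact h1
  have hevr : ∀ n, r ((fun y => φ'.eval y)^[n] x') = θ ((fun z => f.eval z)^[n] y) := by
    intro n
    rw [TFS5.map_iter_eval r φ' n x', hφf, hxr, ← TFS5.map_iter_eval θ f n y]
  obtain ⟨N, hN, hper1⟩ := hper
  have hper' : (fun z => f.eval z)^[N] y = y := by
    apply hθi
    rw [← hevr, ← hxr, ← sub_eq_zero, ← map_sub, hrv]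
    have e : ((((fun y => φ'.eval y)^[N] x' - x') : V.integer) : K) =
        (fun y => φ.eval y)^[N] x - x := by
      rw [← hev]
      rfl
    rw [e]
    exact hper1
  have hperp : Function.IsPeriodicPt (fun z => f.eval z) N y := hper'
  obtain ⟨m, hm⟩ := hreach y
  have hm' : (fun z => f.eval z)^[m % N] y = c := by
    rw [hperp.iterate_mod_apply]
    exact hm
  obtain ⟨Q, E, hQ, hE, hP, hz⟩ := ord_iter hc1 hc2 hc3 y N
  have h2E : 2 ∣ E := hz ⟨m % N, Nat.mod_lt _ hN, hm'⟩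
  have hPe : ((((φ.comp)^[N] X).comp (X + C x) - C x)) =
      ((((φ'.comp)^[N] X).comp (X + C x') - C x')).map V.integer.subtype := by
    rw [Polynomial.map_sub, Polynomial.map_comp, TFS5.map_iter_comp, hφφ, Polynomial.map_add,
      map_X, map_C]
    rfl
  have hPr : ((((φ'.comp)^[N] X).comp (X + C x') - C x')).map r = X ^ E * Q.map θ := by
    have h4 := congrArg (Polynomial.map θ) hP
    rw [Polynomial.map_comp, TFS5.map_iter_comp, Polynomial.map_add, map_X, map_C,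
      Polynomial.map_add, map_C, Polynomial.map_mul, Polynomial.map_pow, map_X, hper'] at h4
    rw [Polynomial.map_sub, Polynomial.map_comp, TFS5.map_iter_comp, Polynomial.map_add, map_X,
      map_C, hφf, hxr, h4, add_sub_cancel_left]
  have hc : ∀ j, V ((((φ.comp)^[N] X).comp (X + C x) - C x).coeff j) < 1 ↔
      (X ^ E * Q.map θ).coeff j = 0 := by
    intro j
    rw [← hPr, coeff_map, hrv, hPe, coeff_map]
    rfl
  have hle : ∀ j, V ((((φ.comp)^[N] X).comp (X + C x) - C x).coeff j) ≤ 1 := by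
    intro j
    rw [hPe, coeff_map]
    exact (((((φ'.comp)^[N] X).comp (X + C x') - C x')).coeff j).2
  refine ⟨N, E, hN, Nat.le_of_dvd hE h2E, ⟨2, Nat.prime_two, hp2, h2E⟩, ?_, ?_⟩
  · intro j hj
    rw [hc, coeff_X_pow_mul', if_neg (by omega)]
  · apply le_antisymm (hle _)
    rw [← not_lt, hc, coeff_X_pow_mul', if_pos le_rfl, Nat.sub_self, coeff_map]
    intro h4
    apply hQ
    apply hθi
    rw [h4, map_zero]

end Pool.Agent.TFS6
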