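import Pool.Agent.TFS6.Small
import Pool.Agent.TFS6.Cnt
import Pool.Agent.Arb.Rat2

set_option autoImplicit false

/-!
# A positive share of the monic integer polynomials of every degree
-/

namespace Pool.Agent.TFS6

open Polynomial NumberField IsDedekindDomain
open Pool.Agent.AAP (vc)
open Pool.Agent.FAM (Cube mem_Cube card_Cube)
open Pool.Agent.LMD.FinA (image_vc vc_inj)
open Pool.Agent.TameArb (ph GP)

/-- the share of the box with a residue in a given set, one prime -/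
theorem share_one {K : Type} [Field K] [NumberField K] {d : ℕ} (v : HeightOneSpectrum (𝓞 K))
    (A : Set (Fin d → 𝓞 K ⧸ v.asIdeal)) (δ : ℝ)
    (hA : δ * (Ideal.absNorm v.asIdeal : ℝ) ^ d ≤ (A.ncard : ℝ)) (ε : ℝ) (hε : 0 < ε)
    (m : ℕ) (ω : Module.Basis (Fin m) ℤ (𝓞 K)) : ∃ H₀ : ℕ, ∀ H : ℕ, H₀ ≤ H →
      (1 - Real.exp (-δ) - ε) * ({t : Fin d → 𝓞 K | ∀ i j, |ω.repr (t i) j| ≤ H}.ncard : ℝ) ≤
        ({t : Fin d → 𝓞 K | (∀ i j, |ω.repr (t i) j| ≤ H) ∧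
          (fun i => Ideal.Quotient.mk v.asIdeal (t i)) ∈ A}.ncard : ℝ) := by
  classical
  obtain ⟨e⟩ := AAP.FinA.exists_equiv d m
  have hfin : Finite (𝓞 K ⧸ v.asIdeal) := Ideal.finiteQuotientOfFreeOfNeBot _ v.ne_bot
  have hq : Nat.card (𝓞 K ⧸ v.asIdeal) = Ideal.absNorm v.asIdeal := by
    rw [Ideal.absNorm_apply]
    rfl
  obtain ⟨A', hA'⟩ : ∃ A' : ∀ w : HeightOneSpectrum (𝓞 K), Set (Fin d → 𝓞 K ⧸ w.asIdeal),
    A' = fun w => {t | ¬ ∃ h : w = v, (h ▸ t) ∈ A} := ⟨_, rfl⟩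
  have hAv : A' v = Aᶜ := by
    rw [hA']
    ext t
    constructor
    · intro h ht
      exact h ⟨rfl, ht⟩
    · rintro h ⟨_, ht⟩
      exact h ht
  have hAc : ∀ w ∈ ({v} : Finset (HeightOneSpectrum (𝓞 K))), ((A' w).ncard : ℝ) ≤
      (1 - (fun _ => δ) w) * (Ideal.absNorm w.asIdeal : ℝ) ^ d := by
    intro w hw
    rw [Finset.mem_singleton] at hw
    subst hw
    rw [hAv]
    have h1 := Set.ncard_add_ncard_compl A
    rw [Nat.card_fun, Nat.card_fin, hq] at h1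
    have h2 : (A.ncard : ℝ) + (Aᶜ.ncard : ℝ) = (Ideal.absNorm w.asIdeal : ℝ) ^ d := by
      exact_mod_cast h1
    linarith
  obtain ⟨H₀, hH⟩ := LMD.sieve_fin ω e {v} A' (fun _ => δ) hAc ε hε
  refine ⟨H₀, fun H hH0 => ?_⟩
  have h1 := hH H hH0
  rw [Finset.sum_singleton] at h1
  obtain ⟨S, hS⟩ : ∃ S : Set (Fin (d * m) → ℤ), S =
    (Cube (d * m) H : Set (Fin (d * m) → ℤ)) ∩
      {s | ∀ w ∈ ({v} : Finset (HeightOneSpectrum (𝓞 K))),
        (fun i => Ideal.Quotient.mk w.asIdeal (vc ω e s i)) ∈ A' w} := ⟨_, rfl⟩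
  rw [← hS] at h1
  have h3 : ({t : Fin d → 𝓞 K | ∀ i j, |ω.repr (t i) j| ≤ H}.ncard : ℝ) =
      (2 * (H : ℝ) + 1) ^ (d * m) := by
    rw [image_vc ω e H, Set.ncard_image_of_injective _ (vc_inj ω e), Set.ncard_coe_finset,
      card_Cube]
    push_cast
    rfl
  have h4 : (vc ω e : _ → Fin d → 𝓞 K) '' ((Cube (d * m) H : Set (Fin (d * m) → ℤ)) \ S) ⊆
      {t : Fin d → 𝓞 K | (∀ i j, |ω.repr (t i) j| ≤ H) ∧
        (fun i => Ideal.Quotient.mk v.asIdeal (t i)) ∈ A} := by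
    rintro _ ⟨s, ⟨hs1, hs2⟩, rfl⟩
    refine ⟨?_, ?_⟩
    · have h5 : vc ω e s ∈ {t : Fin d → 𝓞 K | ∀ i j, |ω.repr (t i) j| ≤ H} := by
        rw [image_vc ω e H]
        exact ⟨s, hs1, rfl⟩
      exact h5
    · by_contra hcon
      apply hs2
      rw [hS]
      refine ⟨hs1, fun w hw => ?_⟩
      rw [Finset.mem_singleton] at hw
      subst hw
      rw [hAv]
      exact hcon
  have hfin2 : {t : Fin d → 𝓞 K | (∀ i j, |ω.repr (t i) j| ≤ H)}.Finite := by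
    rw [image_vc ω e H]
    exact (Finset.finite_toSet _).image _
  have h5 := Set.ncard_le_ncard h4 (hfin2.subset fun t ht => ht.1)
  rw [Set.ncard_image_of_injective _ (vc_inj ω e)] at h5
  have h6 : ((Cube (d * m) H : Set (Fin (d * m) → ℤ)) \ S).ncard + S.ncard =
      (2 * H + 1) ^ (d * m) := by
    rw [Set.ncard_sdiff_add_ncard_of_subset (by rw [hS]; exact Set.inter_subset_left)
      (Finset.finite_toSet _), Set.ncard_coe_finset, card_Cube]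
  have h7 : (((Cube (d * m) H : Set (Fin (d * m) → ℤ)) \ S).ncard : ℝ) +
      (S.ncard : ℝ) = (2 * (H : ℝ) + 1) ^ (d * m) := by
    exact_mod_cast h6
  rw [h3]
  have h8 : (((Cube (d * m) H : Set (Fin (d * m) → ℤ)) \ S).ncard : ℝ) ≤
      ({t : Fin d → 𝓞 K | (∀ i j, |ω.repr (t i) j| ≤ H) ∧
        (fun i => Ideal.Quotient.mk v.asIdeal (t i)) ∈ A}.ncard : ℝ) := by
    exact_mod_cast h5
  rw [sub_mul, sub_mul, one_mul]
  linarith

/-- the places of `ℚ` -/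
theorem exists_place (q : ℕ) (hq : q.Prime) : ∃ v : HeightOneSpectrum (𝓞 ℚ),
    Nonempty (ZMod q ≃+* 𝓞 ℚ ⧸ v.asIdeal) ∧ Ideal.absNorm v.asIdeal = q ∧
      ∀ n : ℕ, (n : 𝓞 ℚ ⧸ v.asIdeal) = 0 ↔ q ∣ n := by
  obtain ⟨v, h1, h2⟩ := Pool.Agent.Arb.exists_at_prime hq
  have hmem : ((q : ℕ) : 𝓞 ℚ) ∈ v.asIdeal := by
    have h5 : v.valuation ℚ (algebraMap (𝓞 ℚ) ℚ ((q : ℕ) : 𝓞 ℚ)) < 1 := by
      rw [map_natCast, h1, ← WithZero.exp_zero, WithZero.exp_lt_exp]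
      norm_num
    exact (v.valuation_lt_one_iff_mem (K := ℚ) _).1 h5
  have hq0 : ((q : ℕ) : 𝓞 ℚ ⧸ v.asIdeal) = 0 := by
    rw [← map_natCast (Ideal.Quotient.mk v.asIdeal), Ideal.Quotient.eq_zero_iff_mem]
    exact hmem
  have hp : Fact q.Prime := ⟨hq⟩
  have hnt : Nontrivial (𝓞 ℚ ⧸ v.asIdeal) := Ideal.Quotient.nontrivial_iff.2 v.isPrime.ne_top
  have hch : CharP (𝓞 ℚ ⧸ v.asIdeal) q := (CharP.charP_iff_prime_eq_zero hq).2 hq0
  let f : ZMod q →+* 𝓞 ℚ ⧸ v.asIdeal := ZMod.castHom (dvd_refl q) _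
  have hfi : Function.Injective f := f.injective
  have hfs : Function.Surjective f := by
    intro y
    obtain ⟨x, rfl⟩ := Ideal.Quotient.mk_surjective y
    refine ⟨((Rat.ringOfIntegersEquiv x : ℤ) : ZMod q), ?_⟩
    rw [map_intCast]
    have e : x = ((Rat.ringOfIntegersEquiv x : ℤ) : 𝓞 ℚ) := by
      apply Rat.ringOfIntegersEquiv.injective
      rw [map_intCast]
      rfl
    conv_rhs => rw [e]
    rw [map_intCast]
  refine ⟨v, ⟨RingEquiv.ofBijective f ⟨hfi, hfs⟩⟩, ?_, fun n => CharP.cast_eq_zero_iff _ q n⟩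
  rw [Ideal.absNorm_apply]
  change Nat.card (𝓞 ℚ ⧸ v.asIdeal) = q
  rw [← Nat.card_congr (RingEquiv.ofBijective f ⟨hfi, hfs⟩).toEquiv, Nat.card_zmod]

/-- all finite sets, affine form -/
def AllG {d : ℕ} (t : Fin d → 𝓞 ℚ) : Prop :=
  ∀ Γ : Finset ℚ, (∀ γ ∈ Γ, ∀ n, 0 < n → (ph (mpol fun i => (t i : ℚ)))^[n] γ ≠ γ) →
    (GP (mpol fun i => (t i : ℚ)) Γ).Infinite

theorem tr2 {d : ℕ} (hd : 2 ≤ d) {q : ℕ} (hq : q.Prime) (hq2 : q ≠ 2) (hdq : ∀ k, d ≠ q ^ k)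
    (v : HeightOneSpectrum (𝓞 ℚ)) (hv : ∀ n : ℕ, (n : 𝓞 ℚ ⧸ v.asIdeal) = 0 ↔ q ∣ n)
    (t : Fin d → 𝓞 ℚ) (h : MCrit (mpol fun i => Ideal.Quotient.mk v.asIdeal (t i))) : AllG t := by
  intro Γ hΓ
  refine mtransfer hd v t ?_ ?_ h Γ hΓ
  · intro h2
    have h3 : ((2 : ℕ) : 𝓞 ℚ ⧸ v.asIdeal) = 0 := by rw [Nat.cast_ofNat]; exact h2
    exact hq2 ((Nat.prime_dvd_prime_iff_eq hq Nat.prime_two).1 ((hv 2).1 h3))
  · intro p k hp hp0
    rw [← (Nat.prime_dvd_prime_iff_eq hq hp).1 ((hv p).1 hp0)]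
    exact hdq k

theorem tr3 {d : ℕ} (hd : 2 ≤ d) (hodd : ¬ 2 ∣ d)
    (v : HeightOneSpectrum (𝓞 ℚ)) (hv : ∀ n : ℕ, (n : 𝓞 ℚ ⧸ v.asIdeal) = 0 ↔ 2 ∣ n)
    (t : Fin d → 𝓞 ℚ) (h : MCritE 3 (mpol fun i => Ideal.Quotient.mk v.asIdeal (t i))) :
    AllG t := by
  intro Γ hΓ
  refine mtransferE hd v t Nat.prime_three ?_ ?_ h Γ hΓ
  · intro h2
    exact absurd ((hv 3).1 h2) (by norm_num)
  · intro p k hp hp0
    rw [← (Nat.prime_dvd_prime_iff_eq Nat.prime_two hp).1 ((hv p).1 hp0)]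
    rintro rfl
    rcases k with _ | k
    · norm_num at hd
    · exact hodd (dvd_pow_self 2 (Nat.succ_ne_zero k))

/-- the local share -/
theorem local_share {d : ℕ} (hd : 2 ≤ d) : ∃ (v : HeightOneSpectrum (𝓞 ℚ))
    (A : Set (Fin d → 𝓞 ℚ ⧸ v.asIdeal)),
    (1 / 3 ^ 8 : ℝ) * (Ideal.absNorm v.asIdeal : ℝ) ^ d ≤ (A.ncard : ℝ) ∧
      ∀ t : Fin d → 𝓞 ℚ, (fun i => Ideal.Quotient.mk v.asIdeal (t i)) ∈ A → AllG t := by
  have big : ∀ q : ℕ, q.Prime → 3 ≤ q → q ≤ 5 → 3 * q ≤ d → (∀ k, d ≠ q ^ k) →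
      ∃ (v : HeightOneSpectrum (𝓞 ℚ)) (A : Set (Fin d → 𝓞 ℚ ⧸ v.asIdeal)),
      (1 / 3 ^ 8 : ℝ) * (Ideal.absNorm v.asIdeal : ℝ) ^ d ≤ (A.ncard : ℝ) ∧
        ∀ t : Fin d → 𝓞 ℚ, (fun i => Ideal.Quotient.mk v.asIdeal (t i)) ∈ A → AllG t := by
    intro q hq hq3 hq5 hqd hk
    obtain ⟨v, -, hN, hv⟩ := exists_place q hq
    have hmax : v.asIdeal.IsMaximal := v.isMaximal
    let _ : Field (𝓞 ℚ ⧸ v.asIdeal) := Ideal.Quotient.field v.asIdeal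
    have hfin : Finite (𝓞 ℚ ⧸ v.asIdeal) := Ideal.finiteQuotientOfFreeOfNeBot _ v.ne_bot
    have hcard : Nat.card (𝓞 ℚ ⧸ v.asIdeal) = q := by
      rw [← hN, Ideal.absNorm_apply]
      rfl
    have h1 := card_mcrit (𝓞 ℚ ⧸ v.asIdeal) (d := d) hcard hq3 hqd
    refine ⟨v, {t | MCrit (mpol t)}, ?_, fun t ht => tr2 hd hq (by omega) hk v hv t ht⟩
    rw [hN]
    refine le_trans (mul_le_mul_of_nonneg_right ?_ (by positivity)) h1
    have hq5' : (q : ℝ) ≤ 5 := by exact_mod_cast hq5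
    have hq3' : (3 : ℝ) ≤ q := by exact_mod_cast hq3
    rw [div_le_div_iff₀ (by norm_num) (by positivity)]
    nlinarith
  by_cases h3 : ∃ k, d = 3 ^ k
  · obtain ⟨k, hk⟩ := h3
    by_cases hk2 : k ≤ 2
    · -- `d = 3` or `d = 9`
      have hd9 : d = 3 ∨ d = 9 := by
        interval_cases k
        · omega
        · left; rw [hk]; norm_num
        · right; rw [hk]; norm_num
      have hd3 : 3 ∣ d := by rcases hd9 with rfl | rfl <;> norm_num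
      have hodd : ¬ 2 ∣ d := by rcases hd9 with rfl | rfl <;> norm_num
      obtain ⟨v, ⟨f⟩, hN, hv⟩ := exists_place 2 Nat.prime_two
      refine ⟨v, {fun i : Fin d => f (if (i : ℕ) = 0 then 1 else 0)}, ?_, fun t ht => ?_⟩
      · rw [hN, Set.ncard_singleton]
        rcases hd9 with rfl | rfl <;> norm_num
      · rw [Set.mem_singleton_iff] at ht
        refine tr3 hd hodd v hv t ?_
        rw [ht]
        have h5 := mcritE_map f (mcritE_two (by omega) hodd hd3)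
        rw [mpol_map] at h5
        exact h5
    · -- `d ≥ 27`
      have h27 : 27 ≤ d := by
        rw [hk]
        calc 27 = 3 ^ 3 := by norm_num
          _ ≤ 3 ^ k := Nat.pow_le_pow_right (by norm_num) (by omega)
      refine big 5 (by norm_num) (by norm_num) le_rfl (by omega) fun j hj => ?_
      have h6 : 3 ∣ 5 ^ j := by
        rw [← hj, hk]
        exact dvd_pow_self 3 (by omega)
      exact absurd (Nat.prime_three.dvd_of_dvd_pow h6) (by norm_num)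
  · by_cases h9 : 9 ≤ d
    · exact big 3 (by norm_num) le_rfl (by norm_num) (by omega) fun k hk => h3 ⟨k, hk⟩
    · have hd' : d = 2 ∨ d = 4 ∨ d = 5 ∨ d = 6 ∨ d = 7 ∨ d = 8 := by
        have : d ≠ 3 := fun h => h3 ⟨1, by rw [h]; norm_num⟩
        omega
      obtain ⟨t₀, ht₀⟩ := mcrit_small hd'
      obtain ⟨v, ⟨f⟩, hN, hv⟩ := exists_place 3 Nat.prime_three
      refine ⟨v, {fun i => f (t₀ i)}, ?_, fun t ht => ?_⟩
      · rw [hN, Set.ncard_singleton]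
        have h7 : ((3 : ℕ) : ℝ) ^ d ≤ 3 ^ 8 := by
          push_cast
          exact pow_le_pow_right₀ (by norm_num) (by omega)
        push_cast at h7 ⊢
        rw [one_div, inv_mul_le_iff₀ (by positivity), mul_one]
        exact h7
      · rw [Set.mem_singleton_iff] at ht
        refine tr2 hd Nat.prime_three (by norm_num) (fun k hk => h3 ⟨k, hk⟩) v hv t ?_
        rw [ht]
        have h5 := mcrit_map f ht₀
        rw [mpol_map] at h5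
        exact h5

/-- **A positive share in every degree**, with a basis -/
theorem pos_monic' {d : ℕ} (hd : 2 ≤ d) (m : ℕ) (ω : Module.Basis (Fin m) ℤ (𝓞 ℚ)) :
    ∃ H₀ : ℕ, ∀ H : ℕ, H₀ ≤ H →
      (1 / 10 ^ 4 : ℝ) * ({t : Fin d → 𝓞 ℚ | ∀ i j, |ω.repr (t i) j| ≤ H}.ncard : ℝ) ≤
        ({t : Fin d → 𝓞 ℚ | (∀ i j, |ω.repr (t i) j| ≤ H) ∧ AllG t}.ncard : ℝ) := by
  obtain ⟨v, A, hA, hAt⟩ := local_share hd
  obtain ⟨H₀, h⟩ := share_one v A (1 / 3 ^ 8) hA (1 / 10 ^ 5) (by norm_num) m ω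
  obtain ⟨e⟩ := AAP.FinA.exists_equiv d m
  refine ⟨H₀, fun H hH => ?_⟩
  have h1 : Real.exp (-(1 / 3 ^ 8)) ≤ 6561 / 6562 := by
    rw [Real.exp_neg]
    have h2 := Real.add_one_le_exp (1 / 3 ^ 8 : ℝ)
    have h3 : (6562 / 6561 : ℝ) ≤ Real.exp (1 / 3 ^ 8) := by
      refine le_trans ?_ h2
      norm_num
    calc (Real.exp (1 / 3 ^ 8))⁻¹ ≤ (6562 / 6561 : ℝ)⁻¹ := inv_anti₀ (by norm_num) h3
      _ = 6561 / 6562 := by norm_num
  have hfin2 : {t : Fin d → 𝓞 ℚ | (∀ i j, |ω.repr (t i) j| ≤ H)}.Finite := by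
    rw [image_vc ω e H]
    exact (Finset.finite_toSet _).image _
  have h4 : {t : Fin d → 𝓞 ℚ | (∀ i j, |ω.repr (t i) j| ≤ H) ∧
      (fun i => Ideal.Quotient.mk v.asIdeal (t i)) ∈ A} ⊆
      {t : Fin d → 𝓞 ℚ | (∀ i j, |ω.repr (t i) j| ≤ H) ∧ AllG t} :=
    fun t ht => ⟨ht.1, hAt t ht.2⟩
  have h5 := Set.ncard_le_ncard h4 (hfin2.subset fun t ht => ht.1)
  have h6 : ({t : Fin d → 𝓞 ℚ | (∀ i j, |ω.repr (t i) j| ≤ H) ∧
      (fun i => Ideal.Quotient.mk v.asIdeal (t i)) ∈ A}.ncard : ℝ) ≤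
      ({t : Fin d → 𝓞 ℚ | (∀ i j, |ω.repr (t i) j| ≤ H) ∧ AllG t}.ncard : ℝ) := by
    exact_mod_cast h5
  refine le_trans (le_trans (mul_le_mul_of_nonneg_right ?_ (Nat.cast_nonneg _)) (h H hH)) h6
  linarith

/-- the coordinates with respect to the basis of the integers -/
theorem key_rat (H : ℕ) (x : 𝓞 ℚ) : (∀ j : Fin 1, |((Module.Basis.singleton (Fin 1) ℤ).map
      (Rat.ringOfIntegersEquiv.symm.toAddEquiv.toIntLinearEquiv)).repr x j| ≤ (H : ℤ)) ↔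
      |(x : ℚ)| ≤ H := by
  have e1 : (x : ℚ) = ((Rat.ringOfIntegersEquiv x : ℤ) : ℚ) :=
    (Rat.ringOfIntegersEquiv_apply_coe x).symm
  rw [e1]
  constructor
  · intro h1
    have h2 := h1 0
    have e2 : ((Module.Basis.singleton (Fin 1) ℤ).map
      (Rat.ringOfIntegersEquiv.symm.toAddEquiv.toIntLinearEquiv)).repr x 0 =
      Rat.ringOfIntegersEquiv x := by
      simp [Module.Basis.map_repr]
    rw [e2] at h2
    exact_mod_cast h2
  · intro h1 j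
    have e2 : ((Module.Basis.singleton (Fin 1) ℤ).map
      (Rat.ringOfIntegersEquiv.symm.toAddEquiv.toIntLinearEquiv)).repr x j =
      Rat.ringOfIntegersEquiv x := by
      simp [Module.Basis.map_repr]
    rw [e2]
    exact_mod_cast h1

/-- the boxes are finite -/
theorem finite_rat {d : ℕ} (H : ℕ) : {t : Fin d → 𝓞 ℚ | ∀ i, |(t i : ℚ)| ≤ H}.Finite := by
  have h := LMD.FinA.finite_box (r := d) ((Module.Basis.singleton (Fin 1) ℤ).map
      (Rat.ringOfIntegersEquiv.symm.toAddEquiv.toIntLinearEquiv)) H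
  simp only [key_rat] at h
  exact h

/-- **A positive share in every degree.** -/
theorem pos_monic {d : ℕ} (hd : 2 ≤ d) : ∃ H₀ : ℕ, ∀ H : ℕ, H₀ ≤ H →
    (1 / 10 ^ 4 : ℝ) * ({t : Fin d → 𝓞 ℚ | ∀ i, |(t i : ℚ)| ≤ H}.ncard : ℝ) ≤
      ({t : Fin d → 𝓞 ℚ | (∀ i, |(t i : ℚ)| ≤ H) ∧ ∀ Γ : Finset ℚ,
        (∀ γ ∈ Γ, ∀ n, 0 < n → (ph (mpol fun i => (t i : ℚ)))^[n] γ ≠ γ) →
          (GP (mpol fun i => (t i : ℚ)) Γ).Infinite}.ncard : ℝ) := by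
  obtain ⟨H₀, h⟩ := pos_monic' hd 1
    ((Module.Basis.singleton (Fin 1) ℤ).map
      (Rat.ringOfIntegersEquiv.symm.toAddEquiv.toIntLinearEquiv))
  refine ⟨H₀, fun H hH => ?_⟩
  have h1 := h H hH
  simp only [key_rat] at h1
  exact h1

end Pool.Agent.TFS6
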