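import Mathlib
import Pool.Agent.PSH.Pair
import Pool.Agent.TFS4.Sup
import Pool.Agent.TFS6.Defs

set_option autoImplicit false

/-!
# From the affine line to the projective line
-/

namespace Pool.Agent.TFS6

open Polynomial NumberField IsDedekindDomain
open scoped WithZero
open Pool.Agent.PNH (Tup app)
open Pool.Agent.TameArb (ph GP)
open Pool.Agent.AAP (wd nv Cg PerMod SP fm)
open Pool.Agent.PSH.PairA (pr hom_pr isMor_pr iter_pr good_pr)

/-- a point of the projective line other than infinity, up to scaling -/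
theorem smul_eq {k : Type} [Field k] {x : Fin 2 → k} (h : x 1 ≠ 0) :
    x = x 1 • ![x 0 / x 1, 1] := by
  funext i
  fin_cases i
  · change x 0 = x 1 * (x 0 / x 1)
    field_simp
  · change x 1 = x 1 * 1
    rw [mul_one]

/-- if all affine sets are fine, then all projective sets are fine -/
theorem sp_of_gp {K : Type} [Field K] [NumberField K] {φ : K[X]} (hd : 2 ≤ φ.natDegree)
    (hall : ∀ Γ : Finset K, (∀ γ ∈ Γ, ∀ n, 0 < n → (ph φ)^[n] γ ≠ γ) → (GP φ Γ).Nonempty)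
    (Δ : Finset (Fin 2 → K)) (hΔ : ∀ x ∈ Δ, x ≠ 0 ∧ ¬ AAP.Periodic (pr φ) x) :
    (SP (pr φ) Δ).Nonempty := by
  classical
  have hwd : ∀ a b : K, AAP.wd ![a, 1] ![b, 1] = a - b := by
    intro a b
    simp [AAP.wd]
  -- infinity is periodic
  have h1 : ∀ x ∈ Δ, x 1 ≠ 0 := by
    intro x hx h0
    refine (hΔ x hx).2 ⟨1, one_pos, ?_⟩
    have e1 : app (pr φ) x 1 = 0 := by
      change MvPolynomial.eval x (MvPolynomial.X 1 ^ φ.natDegree) = 0
      rw [map_pow, MvPolynomial.eval_X, h0]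
      exact zero_pow (by omega)
    rw [Function.iterate_one]
    unfold wd
    rw [e1, h0, mul_zero, zero_mul, sub_zero]
  have hper : ∀ x ∈ Δ, ∀ n, 0 < n → (ph φ)^[n] (x 0 / x 1) ≠ x 0 / x 1 := by
    intro x hx n hn h
    refine (hΔ x hx).2 ⟨n, hn, ?_⟩
    have e := smul_eq (h1 x hx)
    have e2 : (app (pr φ))^[n] x = (x 1) ^ (φ.natDegree ^ n) • (app (pr φ))^[n] ![x 0 / x 1, 1] := by
      conv_lhs => rw [e]
      exact AAP.iter_smul (hom_pr φ) _ _ _
    rw [e2, iter_pr, h]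
    have h1' := h1 x hx
    change x 1 ^ φ.natDegree ^ n * (x 0 / x 1) * x 1 - x 1 ^ φ.natDegree ^ n * 1 * x 0 = 0
    rw [mul_assoc, div_mul_cancel₀ _ h1', mul_one, sub_self]
  obtain ⟨v, hv1, hv2⟩ := hall (Δ.image fun x => x 0 / x 1) (by
    intro γ hγ
    obtain ⟨x, hx, rfl⟩ := Finset.mem_image.1 hγ
    exact hper x hx)
  refine ⟨v, good_pr hd hv1, fun x hx hp => ?_⟩
  obtain ⟨h3, h4⟩ := hv2 (x 0 / x 1) (Finset.mem_image_of_mem _ hx)
  apply h4
  have h5 : PerMod (v.valuation K) (pr φ) ![x 0 / x 1, 1] := by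
    rw [smul_eq (h1 x hx)] at hp
    exact (AAP.PerMod.smul (hom_pr φ) (h1 x hx) _).1 hp
  obtain ⟨n, hn, h6⟩ := TFS4.per_aff hv1 h3 h5
  have e2 : (ph φ : K → K) = fun y => φ.eval y := by
    funext y
    exact TameArb.ph_eq_eval φ y
  exact ⟨n, hn, by rw [e2]; exact h6⟩

end Pool.Agent.TFS6
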