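import Mathlib
import Pool.Agent.PSH.Pair
import Pool.Agent.TFS6.Defs

set_option autoImplicit false

/-!
# The pair of forms of a monic polynomial
-/

namespace Pool.Agent.TFS6

open Polynomial
open Pool.Agent.AAP (fm)
open Pool.Agent.PSH.PairA (pr fm_split lo)

theorem mpol_degree {K : Type} [Field K] {d : ℕ} (t : Fin d → K) : (mpol t).natDegree = d := by
  unfold mpol
  refine natDegree_eq_of_degree_eq_some ?_
  have h1 : (∑ i : Fin d, C (t i) * X ^ (i : ℕ) : K[X]).degree < (d : WithBot ℕ) :=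
    degree_sum_fin_lt t
  rw [degree_add_eq_left_of_degree_lt (by rwa [degree_X_pow]), degree_X_pow]

theorem mpol_coeff {K : Type} [Field K] {d : ℕ} (t : Fin d → K) (i : Fin d) :
    (mpol t).coeff i = t i := by
  unfold mpol
  rw [coeff_add, coeff_X_pow, if_neg i.2.ne, zero_add, finsetSum_coeff,
    Finset.sum_eq_single i]
  · rw [coeff_C_mul, coeff_X_pow, if_pos rfl, mul_one]
  · intro j _ hj
    rw [coeff_C_mul, coeff_X_pow, if_neg, mul_zero]
    intro h
    exact hj (Fin.ext h.symm)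
  · intro h
    exact absurd (Finset.mem_univ i) h

theorem mpol_lead {K : Type} [Field K] {d : ℕ} (t : Fin d → K) : (mpol t).coeff d = 1 := by
  unfold mpol
  rw [coeff_add, coeff_X_pow, if_pos rfl, finsetSum_coeff, Finset.sum_eq_zero, add_zero]
  intro j _
  rw [coeff_C_mul, coeff_X_pow, if_neg j.2.ne', mul_zero]

theorem pr_mpol_zero {K : Type} [Field K] {d : ℕ} (t : Fin d → K) :
    pr (mpol t) 0 = MvPolynomial.X 0 ^ d + ∑ j : Fin d, MvPolynomial.C (t j) *
      MvPolynomial.X 0 ^ (j : ℕ) * MvPolynomial.X 1 ^ (d - (j : ℕ)) := by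
  change (fm fun j : Fin ((mpol t).natDegree + 1) => (mpol t).coeff j) = _
  rw [fm_split, mpol_degree, mpol_lead, map_one, one_mul, add_comm]
  congr 1
  unfold lo
  rw [Finset.mul_sum, ← Fin.sum_univ_eq_sum_range (fun i => (MvPolynomial.X 1 *
    (MvPolynomial.C ((mpol t).coeff i) * MvPolynomial.X 0 ^ i *
      MvPolynomial.X 1 ^ (d - 1 - i)) : MvPolynomial (Fin 2) K))]
  refine Finset.sum_congr rfl fun i _ => ?_
  rw [mpol_coeff]
  have e : d - (i : ℕ) = (d - 1 - (i : ℕ)) + 1 := by have := i.2; omega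
  rw [e, pow_succ]
  ring

theorem pr_mpol_one {K : Type} [Field K] {d : ℕ} (t : Fin d → K) :
    pr (mpol t) 1 = MvPolynomial.X 1 ^ d := by
  change (MvPolynomial.X 1 ^ (mpol t).natDegree : MvPolynomial (Fin 2) K) = _
  rw [mpol_degree]

end Pool.Agent.TFS6
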