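import Pool.Agent.TFS6.TraE

set_option autoImplicit false

/-!
# Monic polynomials of small degree with one critical cycle
-/

namespace Pool.Agent.TFS6

open Polynomial

theorem eval_mpol {R : Type} [CommRing R] {d : ℕ} (t : Fin d → R) (y : R) :
    (mpol t).eval y = y ^ d + ∑ i : Fin d, t i * y ^ (i : ℕ) := by
  simp [mpol, eval_finsetSum]

theorem eval_hasse {R : Type} [CommRing R] {d : ℕ} (k : ℕ) (t : Fin d → R) (y : R) :
    (hasseDeriv k (mpol t)).eval y = (d.choose k : R) * y ^ (d - k) +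
      ∑ i : Fin d, ((i : ℕ).choose k : R) * t i * y ^ ((i : ℕ) - k) := by
  unfold mpol
  rw [map_add, map_sum, eval_add, eval_finsetSum]
  congr 1
  · rw [← monomial_one_right_eq_X_pow, hasseDeriv_monomial, eval_monomial, mul_one]
  · refine Finset.sum_congr rfl fun i _ => ?_
    rw [C_mul_X_pow_eq_monomial, hasseDeriv_monomial, eval_monomial]

/-- the values of a monic polynomial, to compute with -/
def fv {R : Type} [CommRing R] {d : ℕ} (t : Fin d → R) (y : R) : R :=
  y ^ d + ∑ i : Fin d, t i * y ^ (i : ℕ)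

/-- the Hasse derivatives of a monic polynomial, to compute with -/
def hv {R : Type} [CommRing R] {d : ℕ} (k : ℕ) (t : Fin d → R) (y : R) : R :=
  (d.choose k : R) * y ^ (d - k) + ∑ i : Fin d, ((i : ℕ).choose k : R) * t i * y ^ ((i : ℕ) - k)

theorem mcrit_of {R : Type} [CommRing R] {d : ℕ} {t : Fin d → R}
    (h1 : ∀ x : R, ∃ n : Fin 4, (fv t)^[(n : ℕ)] x = 0) (h2 : hv 1 t 0 = 0) (h3 : hv 2 t 0 ≠ 0)
    (h4 : ∀ x : R, x ≠ 0 → hv 1 t x ≠ 0) : MCrit (mpol t) := by
  have e : (fun y => (mpol t).eval y) = fv t := funext fun y => eval_mpol t y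
  refine ⟨0, fun x => ?_, ?_, ?_, fun x hx => ?_⟩
  · obtain ⟨n, hn⟩ := h1 x
    exact ⟨n, by rw [e]; exact hn⟩
  · rw [eval_hasse]
    exact h2
  · rw [eval_hasse]
    exact h3
  · rw [eval_hasse]
    exact h4 x hx

/-- an explicit polynomial modulo `3` for every small degree -/
theorem mcrit_small {d : ℕ} (h : d = 2 ∨ d = 4 ∨ d = 5 ∨ d = 6 ∨ d = 7 ∨ d = 8) :
    ∃ t : Fin d → ZMod 3, MCrit (mpol t) := by
  rcases h with rfl | rfl | rfl | rfl | rfl | rfl
  · exact ⟨![2, 0], mcrit_of (by decide) (by decide) (by decide) (by decide)⟩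
  · exact ⟨![0, 0, 2, 0], mcrit_of (by decide) (by decide) (by decide) (by decide)⟩
  · exact ⟨![0, 0, 1, 0, 1], mcrit_of (by decide) (by decide) (by decide) (by decide)⟩
  · exact ⟨![0, 0, 2, 0, 0, 0], mcrit_of (by decide) (by decide) (by decide) (by decide)⟩
  · exact ⟨![0, 0, 1, 0, 1, 0, 0], mcrit_of (by decide) (by decide) (by decide) (by decide)⟩
  · exact ⟨![0, 0, 1, 0, 0, 0, 1, 0], mcrit_of (by decide) (by decide) (by decide) (by decide)⟩

/-- `x ^ d + 1` modulo `2`, `d` odd -/
theorem mcritE_two {d l : ℕ} (hd : 0 < d) (hodd : ¬ 2 ∣ d) (hl : l ∣ d) :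
    MCritE l (mpol (R := ZMod 2) (d := d) fun i => if (i : ℕ) = 0 then 1 else 0) := by
  have e : (mpol (R := ZMod 2) (d := d) fun i => if (i : ℕ) = 0 then 1 else 0) = X ^ d + 1 := by
    unfold mpol
    congr 1
    rw [Finset.sum_eq_single (⟨0, hd⟩ : Fin d)]
    · simp
    · intro i _ hi
      have hi' : (i : ℕ) ≠ 0 := fun h => hi (Fin.ext h)
      simp [hi']
    · intro h
      exact absurd (Finset.mem_univ _) h
  rw [e]
  have h01 : ∀ x : ZMod 2, x = 0 ∨ x = 1 := by decide
  refine ⟨0, fun x => ?_, ⟨d, 1, hd, hl, by simp, ?_⟩, fun x hx => ?_⟩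
  · rcases h01 x with rfl | rfl
    · exact ⟨0, rfl⟩
    · refine ⟨1, ?_⟩
      rw [Function.iterate_one]
      simp only [eval_add, eval_pow, eval_X, eval_one, one_pow]
      decide
  · simp [hd.ne', add_comm]
  · have hx1 : x = 1 := (h01 x).resolve_left hx
    rw [hx1, map_add, ← monomial_one_right_eq_X_pow, hasseDeriv_monomial, eval_add, eval_monomial,
      ← C_1, hasseDeriv_C _ _ one_pos, eval_zero, add_zero, Nat.choose_one_right, one_pow, mul_one,
      mul_one]
    intro h
    exact hodd ((ZMod.natCast_eq_zero_iff d 2).1 h)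

/-- the property is kept by isomorphisms -/
theorem mcrit_map {R S : Type} [CommRing R] [CommRing S] (f : R ≃+* S) {P : R[X]}
    (h : MCrit P) : MCrit (P.map (f : R →+* S)) := by
  obtain ⟨c, h1, h2, h3, h4⟩ := h
  have ev : ∀ (Q : R[X]) (y : R), (Q.map (f : R →+* S)).eval (f y) = f (Q.eval y) := fun Q y =>
    eval_map_apply (f : R →+* S) y
  have hh : ∀ k, hasseDeriv k (P.map (f : R →+* S)) = (hasseDeriv k P).map (f : R →+* S) := by
    intro k
    ext n
    rw [hasseDeriv_coeff, coeff_map, coeff_map, hasseDeriv_coeff]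
    simp
  have hit : ∀ (n : ℕ) (y : R), (fun z => (P.map (f : R →+* S)).eval z)^[n] (f y) =
      f ((fun z => P.eval z)^[n] y) := by
    intro n
    induction n with
    | zero => intro y; rfl
    | succ n ih =>
      intro y
      rw [Function.iterate_succ_apply, Function.iterate_succ_apply]
      rw [ev, ih]
  refine ⟨f c, fun x => ?_, ?_, ?_, fun x hx => ?_⟩
  · obtain ⟨n, hn⟩ := h1 (f.symm x)
    refine ⟨n, ?_⟩
    have := hit n (f.symm x)
    rw [f.apply_symm_apply, hn] at this
    exact this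
  · rw [hh, ev, h2, map_zero]
  · rw [hh, ev]
    intro h
    exact h3 (by rw [← map_zero f] at h; exact f.injective h)
  · rw [hh]
    have hx' : f.symm x ≠ c := by
      intro h
      exact hx (by rw [← h, f.apply_symm_apply])
    have h5 := ev (hasseDeriv 1 P) (f.symm x)
    rw [f.apply_symm_apply] at h5
    rw [h5]
    intro h
    exact h4 _ hx' (by rw [← map_zero f] at h; exact f.injective h)

/-- the property is kept by isomorphisms -/
theorem mcritE_map {R S : Type} [CommRing R] [CommRing S] (f : R ≃+* S) {l : ℕ} {P : R[X]}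
    (h : MCritE l P) : MCritE l (P.map (f : R →+* S)) := by
  obtain ⟨c, h1, ⟨e, Q, he, hle, hQ, h2⟩, h4⟩ := h
  have ev : ∀ (Q : R[X]) (y : R), (Q.map (f : R →+* S)).eval (f y) = f (Q.eval y) := fun Q y =>
    eval_map_apply (f : R →+* S) y
  have hh : ∀ k, hasseDeriv k (P.map (f : R →+* S)) = (hasseDeriv k P).map (f : R →+* S) := by
    intro k
    ext n
    rw [hasseDeriv_coeff, coeff_map, coeff_map, hasseDeriv_coeff]
    simp
  have hit : ∀ (n : ℕ) (y : R), (fun z => (P.map (f : R →+* S)).eval z)^[n] (f y) =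
      f ((fun z => P.eval z)^[n] y) := by
    intro n
    induction n with
    | zero => intro y; rfl
    | succ n ih =>
      intro y
      rw [Function.iterate_succ_apply, Function.iterate_succ_apply]
      rw [ev, ih]
  refine ⟨f c, fun x => ?_, ⟨e, Q.map (f : R →+* S), he, hle, ?_, ?_⟩, fun x hx => ?_⟩
  · obtain ⟨n, hn⟩ := h1 (f.symm x)
    refine ⟨n, ?_⟩
    have := hit n (f.symm x)
    rw [f.apply_symm_apply, hn] at this
    exact this
  · rw [coeff_map]
    intro h
    exact hQ (f.injective (h.trans (map_zero f).symm))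
  · rw [ev]
    have h5 := congrArg (Polynomial.map (f : R →+* S)) h2
    rw [Polynomial.map_comp, Polynomial.map_add, map_X, map_C, Polynomial.map_add, map_C,
      Polynomial.map_mul, Polynomial.map_pow, map_X] at h5
    exact h5
  · rw [hh]
    have hx' : f.symm x ≠ c := by
      intro h
      exact hx (by rw [← h, f.apply_symm_apply])
    have h5 := ev (hasseDeriv 1 P) (f.symm x)
    rw [f.apply_symm_apply] at h5
    rw [h5]
    intro h
    exact h4 _ hx' (by rw [← map_zero f] at h; exact f.injective h)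

end Pool.Agent.TFS6
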